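import Mathlib

/-!
# A self-similar polygonal tiling that is not obtained by the generating-pair method

The tiling is periodic and consists of squares of side lengths `1`, `2` and `3`.
The plane is `ℂ` with its Euclidean distance.
-/

set_option autoImplicit false

namespace Pool.Agent.Results.MP_4b3b27_co.SquaresOneTwoThree

open Set Metric

/-- A polygon: a compact set with nonempty interior whose boundary is the union of the sides
`[v i, v (i+1)]` (indices mod `n`, `n ≥ 3`, distinct vertices), where two different sides have at most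
common endpoints in common. -/
def IsPolygon (P : Set ℂ) : Prop :=
  IsCompact P ∧ (interior P).Nonempty ∧
    ∃ n : ℕ, 3 ≤ n ∧ ∃ v : ZMod n → ℂ, Function.Injective v ∧
      frontier P = ⋃ i, segment ℝ (v i) (v (i + 1)) ∧
      ∀ i j, i ≠ j → segment ℝ (v i) (v (i + 1)) ∩ segment ℝ (v j) (v (j + 1)) ⊆
        {v i, v (i + 1)} ∩ {v j, v (j + 1)}

/-- `f` is a similitude with scaling ratio `r`. -/
def IsSimilitude (f : ℂ → ℂ) (r : ℝ) : Prop := 0 < r ∧ ∀ x y, dist (f x) (f y) = r * dist x y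

/-- `A` and `B` meet only in boundary points. -/
def MeetInBoundary (A B : Set ℂ) : Prop := A ∩ B ⊆ frontier A ∩ frontier B

/-- A tiling: a set of compact sets with union the plane, any two meeting only in boundary points. -/
def IsTiling (T : Set (Set ℂ)) : Prop :=
  (∀ t ∈ T, IsCompact t) ∧ ⋃₀ T = univ ∧ ∀ t ∈ T, ∀ t' ∈ T, t ≠ t' → MeetInBoundary t t'

/-- Finite order: finitely many tiles up to congruence. -/
def FiniteOrder (T : Set (Set ℂ)) : Prop :=
  ∃ F : Set (Set ℂ), F.Finite ∧ ∀ t ∈ T, ∃ p ∈ F, ∃ g : ℂ ≃ᵢ ℂ, t = g '' p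

/-- A patch: a set of tiles whose union is a topological disk. -/
def IsPatch (T U : Set (Set ℂ)) : Prop :=
  U ⊆ T ∧ Nonempty ((⋃₀ U : Set ℂ) ≃ₜ closedBall (0 : ℂ) 1)

/-- Quasiperiodic: for every patch `U` there is `R > 0` such that each disk of radius `R` contains a patch
congruent to `U`. -/
def Quasiperiodic (T : Set (Set ℂ)) : Prop :=
  ∀ U, IsPatch T U → ∃ R : ℝ, 0 < R ∧ ∀ c : ℂ, ∃ g : ℂ ≃ᵢ ℂ,
    IsPatch T ((fun t => g '' t) '' U) ∧ ⋃₀ ((fun t => g '' t) '' U) ⊆ closedBall c R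

/-- Self-similar: some similitude with ratio `> 1` maps every tile to a union of tiles. -/
def SelfSimilar (T : Set (Set ℂ)) : Prop :=
  ∃ (φ : ℂ → ℂ) (r : ℝ), 1 < r ∧ IsSimilitude φ r ∧ ∀ t ∈ T, ∃ S ⊆ T, φ '' t = ⋃₀ S

/-- A self-similar polygonal tiling. -/
def IsSelfSimilarPolygonalTiling (T : Set (Set ℂ)) : Prop :=
  IsTiling T ∧ SelfSimilar T ∧ Quasiperiodic T ∧ FiniteOrder T ∧ (∀ t ∈ T, IsPolygon t) ∧
    ∀ t ∈ T, ∀ t' ∈ T, ∃ (f : ℂ → ℂ) (r : ℝ), IsSimilitude f r ∧ f '' t = t'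

/-- A generating pair `(p, {f 0, ..., f (N-1)})`: `p` is a polygon, the union of the pieces `f n (p)`,
which meet only in boundary points, `N ≥ 2`, the `f n` are similitudes (every similitude of the plane
is a bijection) with ratios `s ^ (a n)`, `0 < s < 1`, where the `a n` are positive integers with greatest
common divisor `1`. -/
structure GeneratingPair where
  p : Set ℂ
  polygon : IsPolygon p
  N : ℕ
  two_le : 2 ≤ N
  f : Fin N → (ℂ ≃ ℂ)
  s : ℝ
  s_pos : 0 < s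
  s_lt : s < 1
  a : Fin N → ℕ
  a_pos : ∀ n, 0 < a n
  gcd_a : Finset.univ.gcd a = 1
  simil : ∀ n, IsSimilitude (f n) (s ^ (a n))
  union : p = ⋃ n, f n '' p
  meet : ∀ n m, n ≠ m → MeetInBoundary (f n '' p) (f m '' p)

namespace GeneratingPair

variable (G : GeneratingPair)

/-- `e(σ)`, the sum of the `a (σ i)`. -/
def e (σ : List (Fin G.N)) : ℕ := (σ.map G.a).sum

/-- `e⁻(σ)`, the sum over all but the last letter. -/
def em (σ : List (Fin G.N)) : ℕ := G.e σ.dropLast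

/-- `f_σ = f_{σ₁} ∘ ⋯ ∘ f_{σₖ}`. -/
def pos : List (Fin G.N) → ℂ → ℂ
  | [] => id
  | n :: l => G.f n ∘ pos l

/-- `f_{-σ} = f_{σ₁}⁻¹ ∘ ⋯ ∘ f_{σₖ}⁻¹`. -/
def neg : List (Fin G.N) → ℂ → ℂ
  | [] => id
  | n :: l => (G.f n).symm ∘ neg l

/-- The prefix `θ|k`. -/
def pre (θ : ℕ → Fin G.N) (k : ℕ) : List (Fin G.N) := List.ofFn fun i : Fin k => θ i

/-- `T(θ, k)`. -/
def level (θ : ℕ → Fin G.N) (k : ℕ) : Set (Set ℂ) :=
  {t | ∃ σ : List (Fin G.N), G.e (G.pre θ k) ≤ G.e σ ∧ G.em σ < G.e (G.pre θ k) ∧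
    t = (G.neg (G.pre θ k) ∘ G.pos σ) '' G.p}

/-- The tiling `T(p, F, θ)`, the union of the `T(θ, k)`, `k ≥ 1`. -/
def tiling (θ : ℕ → Fin G.N) : Set (Set ℂ) := {t | ∃ k : ℕ, 1 ≤ k ∧ t ∈ G.level θ k}

theorem pos_simil (σ : List (Fin G.N)) : ∀ x y, dist (G.pos σ x) (G.pos σ y) = G.s ^ (G.e σ) * dist x y := by
  induction σ with
  | nil => intro x y; simp [pos, e]
  | cons n l ih =>
    intro x y
    have h := (G.simil n).2 (G.pos l x) (G.pos l y)
    show dist (G.f n (G.pos l x)) (G.f n (G.pos l y)) = _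
    rw [h, ih, ← mul_assoc, ← pow_add]
    simp [e]

theorem neg_simil (σ : List (Fin G.N)) :
    ∀ x y, dist (G.neg σ x) (G.neg σ y) = (G.s ^ (G.e σ))⁻¹ * dist x y := by
  induction σ with
  | nil => intro x y; simp [neg, e]
  | cons n l ih =>
    intro x y
    have h := (G.simil n).2 ((G.f n).symm (G.neg l x)) ((G.f n).symm (G.neg l y))
    rw [Equiv.apply_symm_apply, Equiv.apply_symm_apply, ih] at h
    show dist ((G.f n).symm (G.neg l x)) ((G.f n).symm (G.neg l y)) = _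
    have hs := (pow_pos G.s_pos (G.a n)).ne'
    have e1 : G.e (n :: l) = G.a n + G.e l := by simp [e]
    rw [e1, pow_add, mul_inv, mul_assoc, h, ← mul_assoc, inv_mul_cancel₀ hs, one_mul]

end GeneratingPair

/-! ### The tiling -/

/-- The closed square `[x, x+a] × [y, y+a]`. -/
def sq (x y a : ℝ) : Set ℂ := Icc x (x + a) ×ℂ Icc y (y + a)

/-- The eight squares in the block `[0,5] × [0,5]`: lower left corners and sides. -/
def cx : Fin 8 → ℤ := ![0, 3, 3, 4, 0, 2, 2, 3]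
@[inherit_doc cx] def cy : Fin 8 → ℤ := ![0, 0, 2, 2, 3, 3, 4, 3]
@[inherit_doc cx] def side : Fin 8 → ℤ := ![3, 2, 1, 1, 2, 1, 1, 2]

/-- The tile number `i` of the block `[5m, 5m+5] × [5n, 5n+5]`. -/
def tile (q : Fin 8 × ℤ × ℤ) : Set ℂ :=
  sq ((5 * q.2.1 + cx q.1 : ℤ) : ℝ) ((5 * q.2.2 + cy q.1 : ℤ) : ℝ) ((side q.1 : ℤ) : ℝ)

/-- The tiling by squares of side lengths `1`, `2`, `3`. -/
def T : Set (Set ℂ) := range tile

theorem mem_sq {x y a : ℝ} {z : ℂ} : z ∈ sq x y a ↔ (x ≤ z.re ∧ z.re ≤ x + a) ∧ y ≤ z.im ∧ z.im ≤ y + a := by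
  rw [sq, Complex.mem_reProdIm]; rfl

theorem isCompact_sq (x y a : ℝ) : IsCompact (sq x y a) := isCompact_Icc.reProdIm isCompact_Icc

theorem side_pos (i : Fin 8) : 0 < side i := by fin_cases i <;> decide

theorem frontier_sq {x y a : ℝ} (ha : 0 < a) {z : ℂ} :
    z ∈ frontier (sq x y a) ↔ z ∈ sq x y a ∧ (z.re = x ∨ z.re = x + a ∨ z.im = y ∨ z.im = y + a) := by
  rw [sq, Complex.frontier_reProdIm, closure_Icc, closure_Icc, frontier_Icc (by linarith),
    frontier_Icc (by linarith)]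
  simp only [mem_union, Complex.mem_reProdIm, mem_Icc, mem_insert_iff, mem_singleton_iff]
  constructor
  · rintro (⟨h1, h2 | h2⟩ | ⟨h1 | h1, h2⟩)
    · exact ⟨⟨h1, by constructor <;> linarith⟩, by tauto⟩
    · exact ⟨⟨h1, by constructor <;> linarith⟩, by tauto⟩
    · exact ⟨⟨by constructor <;> linarith, h2⟩, by tauto⟩
    · exact ⟨⟨by constructor <;> linarith, h2⟩, by tauto⟩
  · rintro ⟨⟨h1, h2⟩, h | h | h | h⟩
    · exact Or.inr ⟨Or.inl h, h2⟩
    · exact Or.inr ⟨Or.inr h, h2⟩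
    · exact Or.inl ⟨h1, Or.inl h⟩
    · exact Or.inl ⟨h1, Or.inr h⟩

theorem segment_hor {x x' y : ℝ} (h : x ≤ x') :
    segment ℝ (⟨x, y⟩ : ℂ) ⟨x', y⟩ = {z | x ≤ z.re ∧ z.re ≤ x' ∧ z.im = y} := by
  ext z
  constructor
  · rintro ⟨s, t, hs, ht, hst, rfl⟩
    have hs' : s = 1 - t := by linarith
    subst hs'
    refine ⟨?_, ?_, ?_⟩ <;> simp <;> nlinarith
  · rintro ⟨h1, h2, h3⟩
    rcases h.eq_or_lt with h | h
    · subst h
      have : z = ⟨x, y⟩ := Complex.ext (le_antisymm h2 h1) h3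
      rw [this]; exact left_mem_segment _ _ _
    · have hd : 0 < x' - x := by linarith
      have e1 : (x' - z.re) / (x' - x) + (z.re - x) / (x' - x) = 1 := by field_simp; ring
      have e2 : (x' - z.re) / (x' - x) * x + (z.re - x) / (x' - x) * x' = z.re := by field_simp; ring
      refine ⟨(x' - z.re) / (x' - x), (z.re - x) / (x' - x), by apply div_nonneg <;> linarith,
        by apply div_nonneg <;> linarith, e1, ?_⟩
      apply Complex.ext
      · rw [Complex.add_re, Complex.smul_re, Complex.smul_re, smul_eq_mul, smul_eq_mul]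
        exact e2
      · rw [Complex.add_im, Complex.smul_im, Complex.smul_im, smul_eq_mul, smul_eq_mul, ← add_mul, e1, h3,
          one_mul]

theorem segment_ver {x y y' : ℝ} (h : y ≤ y') :
    segment ℝ (⟨x, y⟩ : ℂ) ⟨x, y'⟩ = {z | y ≤ z.im ∧ z.im ≤ y' ∧ z.re = x} := by
  ext z
  constructor
  · rintro ⟨s, t, hs, ht, hst, rfl⟩
    have hs' : s = 1 - t := by linarith
    subst hs'
    refine ⟨?_, ?_, ?_⟩ <;> simp <;> nlinarith
  · rintro ⟨h1, h2, h3⟩
    rcases h.eq_or_lt with h | h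
    · subst h
      have : z = ⟨x, y⟩ := Complex.ext h3 (le_antisymm h2 h1)
      rw [this]; exact left_mem_segment _ _ _
    · have hd : 0 < y' - y := by linarith
      have e1 : (y' - z.im) / (y' - y) + (z.im - y) / (y' - y) = 1 := by field_simp; ring
      have e2 : (y' - z.im) / (y' - y) * y + (z.im - y) / (y' - y) * y' = z.im := by field_simp; ring
      refine ⟨(y' - z.im) / (y' - y), (z.im - y) / (y' - y), by apply div_nonneg <;> linarith,
        by apply div_nonneg <;> linarith, e1, ?_⟩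
      apply Complex.ext
      · rw [Complex.add_re, Complex.smul_re, Complex.smul_re, smul_eq_mul, smul_eq_mul, ← add_mul, e1, h3,
          one_mul]
      · rw [Complex.add_im, Complex.smul_im, Complex.smul_im, smul_eq_mul, smul_eq_mul]
        exact e2

/-- The corners of the square. -/
def corner (x y a : ℝ) : Fin 4 → ℂ := ![⟨x, y⟩, ⟨x + a, y⟩, ⟨x + a, y + a⟩, ⟨x, y + a⟩]

/-- The corners, indexed mod `4`. -/
def cornerZ (x y a : ℝ) : ZMod 4 → ℂ := corner x y a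

/-- The sides of the square, as sets. -/
def sides (x y a : ℝ) : Fin 4 → Set ℂ :=
  ![{z | x ≤ z.re ∧ z.re ≤ x + a ∧ z.im = y}, {z | y ≤ z.im ∧ z.im ≤ y + a ∧ z.re = x + a},
    {z | x ≤ z.re ∧ z.re ≤ x + a ∧ z.im = y + a}, {z | y ≤ z.im ∧ z.im ≤ y + a ∧ z.re = x}]

/-- The sides, indexed mod `4`. -/
def sidesZ (x y a : ℝ) : ZMod 4 → Set ℂ := sides x y a

theorem isPolygon_sq {x y a : ℝ} (ha : 0 < a) : IsPolygon (sq x y a) := by
  have s0 : segment ℝ (⟨x, y⟩ : ℂ) ⟨x + a, y⟩ = {z | x ≤ z.re ∧ z.re ≤ x + a ∧ z.im = y} :=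
    segment_hor (by linarith)
  have s1 : segment ℝ (⟨x + a, y⟩ : ℂ) ⟨x + a, y + a⟩ = {z | y ≤ z.im ∧ z.im ≤ y + a ∧ z.re = x + a} :=
    segment_ver (by linarith)
  have s2 : segment ℝ (⟨x + a, y + a⟩ : ℂ) ⟨x, y + a⟩ = {z | x ≤ z.re ∧ z.re ≤ x + a ∧ z.im = y + a} := by
    rw [segment_symm]; exact segment_hor (by linarith)
  have s3 : segment ℝ (⟨x, y + a⟩ : ℂ) ⟨x, y⟩ = {z | y ≤ z.im ∧ z.im ≤ y + a ∧ z.re = x} := by
    rw [segment_symm]; exact segment_ver (by linarith)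
  have key : ∀ i : ZMod 4, segment ℝ (cornerZ x y a i) (cornerZ x y a (i + 1)) = sidesZ x y a i := by
    intro i
    change Fin 4 at i
    fin_cases i
    · exact s0
    · exact s1
    · exact s2
    · exact s3
  refine ⟨isCompact_sq x y a, ⟨⟨x + a / 2, y + a / 2⟩, ?_⟩, 4, by norm_num, cornerZ x y a, ?_, ?_, ?_⟩
  · rw [sq, Complex.interior_reProdIm, interior_Icc, interior_Icc, Complex.mem_reProdIm]
    constructor <;> constructor <;> simp <;> linarith
  · intro i j hij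
    change corner x y a i = corner x y a j at hij
    have hx : x ≠ x + a := by linarith
    have hy : y ≠ y + a := by linarith
    change Fin 4 at i j
    fin_cases i <;> fin_cases j <;> first | rfl | (exfalso; simp [corner, Complex.ext_iff] at hij; linarith)
  · simp only [key]
    ext z
    rw [frontier_sq ha, mem_sq, mem_iUnion]
    constructor
    · rintro ⟨⟨⟨h1, h2⟩, h3, h4⟩, h | h | h | h⟩
      · exact ⟨(3 : Fin 4), ⟨h3, h4, h⟩⟩
      · exact ⟨(1 : Fin 4), ⟨h3, h4, h⟩⟩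
      · exact ⟨(0 : Fin 4), ⟨h1, h2, h⟩⟩
      · exact ⟨(2 : Fin 4), ⟨h1, h2, h⟩⟩
    · rintro ⟨i, hi⟩
      change Fin 4 at i
      fin_cases i
      · obtain ⟨h1, h2, h3⟩ := hi
        exact ⟨⟨⟨h1, h2⟩, by constructor <;> linarith⟩, by tauto⟩
      · obtain ⟨h1, h2, h3⟩ := hi
        exact ⟨⟨by constructor <;> linarith, h1, h2⟩, by tauto⟩
      · obtain ⟨h1, h2, h3⟩ := hi
        exact ⟨⟨⟨h1, h2⟩, by constructor <;> linarith⟩, by tauto⟩
      · obtain ⟨h1, h2, h3⟩ := hi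
        exact ⟨⟨by constructor <;> linarith, h1, h2⟩, by tauto⟩
  · intro i j hij z hz
    rw [key, key] at hz
    have fin : ∀ i j : Fin 4, i ≠ j → z ∈ sides x y a i ∩ sides x y a j →
        z ∈ ({corner x y a i, corner x y a (i + 1)} ∩ {corner x y a j, corner x y a (j + 1)} : Set ℂ) := by
      intro i j hij hz
      fin_cases i <;> fin_cases j <;> first
        | exact absurd rfl hij
        | (exfalso; obtain ⟨⟨h1, h2, h3⟩, ⟨h4, h5, h6⟩⟩ := hz; linarith)
        | (obtain ⟨⟨h1, h2, h3⟩, ⟨h4, h5, h6⟩⟩ := hz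
           simp [corner, Complex.ext_iff, h3, h6])
    exact fin i j hij hz

theorem tile_cases (m n : ℤ) (z : ℂ) (h1 : (5 * m : ℝ) ≤ z.re) (h2 : z.re ≤ 5 * m + 5)
    (h3 : (5 * n : ℝ) ≤ z.im) (h4 : z.im ≤ 5 * n + 5) : ∃ i, z ∈ tile (i, m, n) := by
  simp only [tile, mem_sq]
  have conv : ∀ i : Fin 8, ((5 * (m : ℝ) + cx i ≤ z.re ∧ z.re ≤ 5 * m + cx i + side i) ∧
      5 * (n : ℝ) + cy i ≤ z.im ∧ z.im ≤ 5 * n + cy i + side i) →
      ((((5 * m + cx i : ℤ) : ℝ) ≤ z.re ∧ z.re ≤ ((5 * m + cx i : ℤ) : ℝ) + ((side i : ℤ) : ℝ)) ∧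
        ((5 * n + cy i : ℤ) : ℝ) ≤ z.im ∧ z.im ≤ ((5 * n + cy i : ℤ) : ℝ) + ((side i : ℤ) : ℝ)) := by
    intro i h
    push_cast
    exact h
  rcases le_total z.re (5 * m + 3) with a | a
  · rcases le_total z.im (5 * n + 3) with b | b
    · refine ⟨0, conv 0 ?_⟩
      simp [cx, cy, side]; refine ⟨⟨?_, ?_⟩, ?_, ?_⟩ <;> linarith
    · rcases le_total z.re (5 * m + 2) with c | c
      · refine ⟨4, conv 4 ?_⟩
        simp [cx, cy, side]; refine ⟨⟨?_, ?_⟩, ?_, ?_⟩ <;> linarith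
      · rcases le_total z.im (5 * n + 4) with d | d
        · refine ⟨5, conv 5 ?_⟩
          simp [cx, cy, side]; refine ⟨⟨?_, ?_⟩, ?_, ?_⟩ <;> linarith
        · refine ⟨6, conv 6 ?_⟩
          simp [cx, cy, side]; refine ⟨⟨?_, ?_⟩, ?_, ?_⟩ <;> linarith
  · rcases le_total z.im (5 * n + 3) with b | b
    · rcases le_total z.im (5 * n + 2) with c | c
      · refine ⟨1, conv 1 ?_⟩
        simp [cx, cy, side]; refine ⟨⟨?_, ?_⟩, ?_, ?_⟩ <;> linarith
      · rcases le_total z.re (5 * m + 4) with d | d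
        · refine ⟨2, conv 2 ?_⟩
          simp [cx, cy, side]; refine ⟨⟨?_, ?_⟩, ?_, ?_⟩ <;> linarith
        · refine ⟨3, conv 3 ?_⟩
          simp [cx, cy, side]; refine ⟨⟨?_, ?_⟩, ?_, ?_⟩ <;> linarith
    · refine ⟨7, conv 7 ?_⟩
      simp [cx, cy, side]; refine ⟨⟨?_, ?_⟩, ?_, ?_⟩ <;> linarith

theorem tile_bounds (i : Fin 8) (m n : ℤ) {z : ℂ} (hz : z ∈ tile (i, m, n)) :
    (5 * (m : ℝ) ≤ z.re ∧ z.re ≤ 5 * m + 5) ∧ 5 * (n : ℝ) ≤ z.im ∧ z.im ≤ 5 * n + 5 := by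
  rw [tile, mem_sq] at hz
  push_cast at hz
  fin_cases i <;> simp [cx, cy, side] at hz <;> obtain ⟨⟨h1, h2⟩, h3, h4⟩ := hz <;>
    refine ⟨⟨?_, ?_⟩, ?_, ?_⟩ <;> linarith

/-- Two different tiles are separated in one of the coordinates. -/
theorem separated (q q' : Fin 8 × ℤ × ℤ) (h : q ≠ q') :
    (5 * q.2.1 + cx q.1 + side q.1 ≤ 5 * q'.2.1 + cx q'.1) ∨
    (5 * q'.2.1 + cx q'.1 + side q'.1 ≤ 5 * q.2.1 + cx q.1) ∨
    (5 * q.2.2 + cy q.1 + side q.1 ≤ 5 * q'.2.2 + cy q'.1) ∨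
    (5 * q'.2.2 + cy q'.1 + side q'.1 ≤ 5 * q.2.2 + cy q.1) := by
  obtain ⟨i, m, n⟩ := q
  obtain ⟨j, m', n'⟩ := q'
  have hb : ∀ i : Fin 8, 0 ≤ cx i ∧ 0 ≤ cy i ∧ cx i + side i ≤ 5 ∧ cy i + side i ≤ 5 := by decide
  have hs : ∀ i j : Fin 8, i ≠ j → cx i + side i ≤ cx j ∨ cx j + side j ≤ cx i ∨
      cy i + side i ≤ cy j ∨ cy j + side j ≤ cy i := by decide
  obtain ⟨a1, a2, a3, a4⟩ := hb i
  obtain ⟨b1, b2, b3, b4⟩ := hb j
  dsimp only
  rcases lt_trichotomy m m' with hm | hm | hm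
  · left; omega
  · rcases lt_trichotomy n n' with hn | hn | hn
    · right; right; left; omega
    · subst hm hn
      have hij : i ≠ j := fun e => h (by rw [e])
      have := hs i j hij
      omega
    · right; right; right; omega
  · right; left; omega

theorem isTiling : IsTiling T := by
  refine ⟨?_, ?_, ?_⟩
  · rintro _ ⟨q, rfl⟩
    exact isCompact_sq _ _ _
  · rw [eq_univ_iff_forall]
    intro z
    have f1 := Int.floor_le (z.re / 5)
    have f2 := (Int.lt_floor_add_one (z.re / 5)).le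
    have f3 := Int.floor_le (z.im / 5)
    have f4 := (Int.lt_floor_add_one (z.im / 5)).le
    obtain ⟨i, hi⟩ := tile_cases ⌊z.re / 5⌋ ⌊z.im / 5⌋ z (by linarith) (by linarith) (by linarith)
      (by linarith)
    exact ⟨_, ⟨_, rfl⟩, hi⟩
  · rintro _ ⟨q, rfl⟩ _ ⟨q', rfl⟩ hne z ⟨hz, hz'⟩
    have hq : q ≠ q' := fun h => hne (by rw [h])
    have p1 : (0 : ℝ) < ((side q.1 : ℤ) : ℝ) := by exact_mod_cast side_pos q.1
    have p2 : (0 : ℝ) < ((side q'.1 : ℤ) : ℝ) := by exact_mod_cast side_pos q'.1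
    refine ⟨(frontier_sq p1).2 ⟨hz, ?_⟩, (frontier_sq p2).2 ⟨hz', ?_⟩⟩ <;>
    · rw [tile, mem_sq] at hz hz'
      obtain ⟨⟨a1, a2⟩, a3, a4⟩ := hz
      obtain ⟨⟨b1, b2⟩, b3, b4⟩ := hz'
      rcases separated q q' hq with h | h | h | h
      · have h' : ((5 * q.2.1 + cx q.1 : ℤ) : ℝ) + ((side q.1 : ℤ) : ℝ) ≤ ((5 * q'.2.1 + cx q'.1 : ℤ) : ℝ) := by
          exact_mod_cast h
        first
          | exact Or.inr (Or.inl (le_antisymm a2 (by linarith)))
          | exact Or.inl (le_antisymm (by linarith) b1)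
      · have h' : ((5 * q'.2.1 + cx q'.1 : ℤ) : ℝ) + ((side q'.1 : ℤ) : ℝ) ≤ ((5 * q.2.1 + cx q.1 : ℤ) : ℝ) := by
          exact_mod_cast h
        first
          | exact Or.inl (le_antisymm (by linarith) a1)
          | exact Or.inr (Or.inl (le_antisymm b2 (by linarith)))
      · have h' : ((5 * q.2.2 + cy q.1 : ℤ) : ℝ) + ((side q.1 : ℤ) : ℝ) ≤ ((5 * q'.2.2 + cy q'.1 : ℤ) : ℝ) := by
          exact_mod_cast h
        first
          | exact Or.inr (Or.inr (Or.inr (le_antisymm a4 (by linarith))))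
          | exact Or.inr (Or.inr (Or.inl (le_antisymm (by linarith) b3)))
      · have h' : ((5 * q'.2.2 + cy q'.1 : ℤ) : ℝ) + ((side q'.1 : ℤ) : ℝ) ≤ ((5 * q.2.2 + cy q.1 : ℤ) : ℝ) := by
          exact_mod_cast h
        first
          | exact Or.inr (Or.inr (Or.inl (le_antisymm (by linarith) a3)))
          | exact Or.inr (Or.inr (Or.inr (le_antisymm b4 (by linarith))))

theorem selfSimilar : SelfSimilar T := by
  refine ⟨fun z => 5 * z, 5, by norm_num, ⟨by norm_num, ?_⟩, ?_⟩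
  · intro x y
    rw [dist_eq_norm, dist_eq_norm, ← mul_sub, norm_mul]
    norm_num
  · rintro _ ⟨⟨j, m, n⟩, rfl⟩
    refine ⟨{t | ∃ i a b, t = tile (i, a, b) ∧ 5 * m + cx j ≤ a ∧ a < 5 * m + cx j + side j ∧
      5 * n + cy j ≤ b ∧ b < 5 * n + cy j + side j}, ?_, ?_⟩
    · rintro _ ⟨i, a, b, rfl, -⟩
      exact ⟨_, rfl⟩
    · have sp := side_pos j
      ext w
      constructor
      · rintro ⟨z, hz, rfl⟩
        rw [tile, mem_sq] at hz
        obtain ⟨⟨a1, a2⟩, a3, a4⟩ := hz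
        have key : ∀ (t : ℝ) (u v : ℤ), 0 < v → (u : ℝ) ≤ t → t ≤ u + v → ∃ a : ℤ, u ≤ a ∧ a < u + v ∧
            (a : ℝ) ≤ t ∧ t ≤ a + 1 := by
          intro t u v hv h1 h2
          rcases h2.lt_or_eq with h | h
          · refine ⟨⌊t⌋, Int.le_floor.2 h1, ?_, Int.floor_le t, (Int.lt_floor_add_one t).le⟩
            rw [Int.floor_lt]
            push_cast
            exact h
          · refine ⟨u + v - 1, by omega, by omega, ?_, ?_⟩
            · push_cast; linarith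
            · push_cast; linarith
        obtain ⟨a, ha1, ha2, ha3, ha4⟩ := key z.re (5 * m + cx j) (side j) sp a1 a2
        obtain ⟨b, hb1, hb2, hb3, hb4⟩ := key z.im (5 * n + cy j) (side j) sp a3 a4
        obtain ⟨i, hi⟩ := tile_cases a b (5 * z) (by simp; linarith) (by simp; linarith)
          (by simp; linarith) (by simp; linarith)
        exact ⟨_, ⟨i, a, b, rfl, ha1, ha2, hb1, hb2⟩, hi⟩
      · rintro ⟨_, ⟨i, a, b, rfl, h1, h2, h3, h4⟩, hw⟩
        obtain ⟨⟨w1, w2⟩, w3, w4⟩ := tile_bounds i a b hw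
        refine ⟨w / 5, ?_, by ring⟩
        have h1' : ((5 * m + cx j : ℤ) : ℝ) ≤ a := by exact_mod_cast h1
        have h2' : (a : ℝ) + 1 ≤ ((5 * m + cx j : ℤ) : ℝ) + ((side j : ℤ) : ℝ) := by exact_mod_cast h2
        have h3' : ((5 * n + cy j : ℤ) : ℝ) ≤ b := by exact_mod_cast h3
        have h4' : (b : ℝ) + 1 ≤ ((5 * n + cy j : ℤ) : ℝ) + ((side j : ℤ) : ℝ) := by exact_mod_cast h4
        have er : (w / 5).re = w.re / 5 := by simp
        have ei : (w / 5).im = w.im / 5 := by simp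
        rw [tile, mem_sq, er, ei]
        refine ⟨⟨?_, ?_⟩, ?_, ?_⟩ <;> linarith

theorem translate_tile (q : Fin 8 × ℤ × ℤ) (a b : ℤ) :
    (IsometryEquiv.addRight (⟨5 * a, 5 * b⟩ : ℂ)) '' tile q = tile (q.1, q.2.1 + a, q.2.2 + b) := by
  ext z
  rw [tile, tile, mem_sq]
  constructor
  · rintro ⟨w, hw, rfl⟩
    rw [mem_sq] at hw
    obtain ⟨⟨h1, h2⟩, h3, h4⟩ := hw
    push_cast at h1 h2 h3 h4 ⊢
    simp only [IsometryEquiv.addRight_apply, Complex.add_re, Complex.add_im]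
    refine ⟨⟨?_, ?_⟩, ?_, ?_⟩ <;> linarith
  · rintro ⟨⟨h1, h2⟩, h3, h4⟩
    refine ⟨z - ⟨5 * a, 5 * b⟩, ?_, by simp⟩
    rw [mem_sq]
    push_cast at h1 h2 h3 h4 ⊢
    simp only [Complex.sub_re, Complex.sub_im]
    refine ⟨⟨?_, ?_⟩, ?_, ?_⟩ <;> linarith

theorem quasiperiodic : Quasiperiodic T := by
  rintro U ⟨hU, ⟨e⟩⟩
  have hc : IsCompact (⋃₀ U) := by
    have h1 : CompactSpace (closedBall (0 : ℂ) 1) :=
      isCompact_iff_compactSpace.mp (isCompact_closedBall 0 1)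
    exact isCompact_iff_compactSpace.mpr e.symm.compactSpace
  obtain ⟨ρ, hρ⟩ := hc.isBounded.subset_closedBall 0
  refine ⟨|ρ| + 10, by positivity, ?_⟩
  intro c
  set a := ⌊c.re / 5⌋ with ha
  set b := ⌊c.im / 5⌋ with hb
  let g := IsometryEquiv.addRight (⟨5 * a, 5 * b⟩ : ℂ)
  have hsub : (fun t => g '' t) '' U ⊆ T := by
    rintro _ ⟨t, ht, rfl⟩
    obtain ⟨q, rfl⟩ := hU ht
    exact ⟨_, (translate_tile q a b).symm⟩
  have hun : ⋃₀ ((fun t => g '' t) '' U) = g '' ⋃₀ U := by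
    rw [sUnion_image, sUnion_eq_biUnion, image_iUnion₂]
  refine ⟨g, ⟨hsub, ?_⟩, ?_⟩
  · rw [hun]
    exact ⟨(g.toHomeomorph.image (⋃₀ U)).symm.trans e⟩
  · rw [hun]
    rintro _ ⟨z, hz, rfl⟩
    have hz' := hρ hz
    rw [mem_closedBall, dist_zero_right] at hz'
    rw [mem_closedBall]
    have f1 := Int.floor_le (c.re / 5)
    have f2 := (Int.lt_floor_add_one (c.re / 5)).le
    have f3 := Int.floor_le (c.im / 5)
    have f4 := (Int.lt_floor_add_one (c.im / 5)).le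
    rw [← ha] at f1 f2
    rw [← hb] at f3 f4
    have hd : ‖(⟨5 * a, 5 * b⟩ : ℂ) - c‖ ≤ 10 := by
      refine (Complex.norm_le_abs_re_add_abs_im _).trans ?_
      have h1 : |((⟨5 * a, 5 * b⟩ : ℂ) - c).re| ≤ 5 := by
        rw [abs_le]; simp; constructor <;> linarith
      have h2 : |((⟨5 * a, 5 * b⟩ : ℂ) - c).im| ≤ 5 := by
        rw [abs_le]; simp; constructor <;> linarith
      linarith
    have hg : g z = z + ⟨5 * a, 5 * b⟩ := rfl
    rw [dist_eq_norm, hg, add_sub_assoc]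
    refine (norm_add_le _ _).trans ?_
    linarith [le_abs_self ρ]

theorem sq_image (x y a x' y' a' : ℝ) (ha : 0 < a) (ha' : 0 < a') :
    (fun z : ℂ => ((a' / a : ℝ) : ℂ) * (z - ⟨x, y⟩) + ⟨x', y'⟩) '' sq x y a = sq x' y' a' := by
  ext w
  rw [mem_sq]
  constructor
  · rintro ⟨z, hz, rfl⟩
    rw [mem_sq] at hz
    obtain ⟨⟨h1, h2⟩, h3, h4⟩ := hz
    have hr : 0 < a' / a := by positivity
    have e : a' / a * a = a' := by field_simp
    simp only [Complex.add_re, Complex.add_im, Complex.re_ofReal_mul, Complex.im_ofReal_mul, Complex.sub_re,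
      Complex.sub_im]
    have m1 : 0 ≤ a' / a * (z.re - x) := mul_nonneg hr.le (by linarith)
    have m2 : a' / a * (z.re - x) ≤ a' / a * a := mul_le_mul_of_nonneg_left (by linarith) hr.le
    have m3 : 0 ≤ a' / a * (z.im - y) := mul_nonneg hr.le (by linarith)
    have m4 : a' / a * (z.im - y) ≤ a' / a * a := mul_le_mul_of_nonneg_left (by linarith) hr.le
    rw [e] at m2 m4
    refine ⟨⟨?_, ?_⟩, ?_, ?_⟩ <;> linarith
  · rintro ⟨⟨h1, h2⟩, h3, h4⟩
    have hr : 0 < a / a' := by positivity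
    have e : a / a' * a' = a := by field_simp
    have e' : ((a' / a : ℝ) : ℂ) * ((a / a' : ℝ) : ℂ) = 1 := by
      rw [← Complex.ofReal_mul]
      have : a' / a * (a / a') = 1 := by field_simp
      rw [this]; simp
    refine ⟨((a / a' : ℝ) : ℂ) * (w - ⟨x', y'⟩) + ⟨x, y⟩, ?_, ?_⟩
    · rw [mem_sq]
      simp only [Complex.add_re, Complex.add_im, Complex.re_ofReal_mul, Complex.im_ofReal_mul,
        Complex.sub_re, Complex.sub_im]
      have m1 : 0 ≤ a / a' * (w.re - x') := mul_nonneg hr.le (by linarith)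
      have m2 : a / a' * (w.re - x') ≤ a / a' * a' := mul_le_mul_of_nonneg_left (by linarith) hr.le
      have m3 : 0 ≤ a / a' * (w.im - y') := mul_nonneg hr.le (by linarith)
      have m4 : a / a' * (w.im - y') ≤ a / a' * a' := mul_le_mul_of_nonneg_left (by linarith) hr.le
      rw [e] at m2 m4
      refine ⟨⟨?_, ?_⟩, ?_, ?_⟩ <;> linarith
    · dsimp only
      rw [add_sub_cancel_right, ← mul_assoc, e', one_mul, sub_add_cancel]

theorem similar (x y a x' y' a' : ℝ) (ha : 0 < a) (ha' : 0 < a') :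
    ∃ (f : ℂ → ℂ) (r : ℝ), IsSimilitude f r ∧ f '' sq x y a = sq x' y' a' := by
  refine ⟨_, a' / a, ⟨by positivity, ?_⟩, sq_image x y a x' y' a' ha ha'⟩
  intro z w
  have hr : 0 < a' / a := by positivity
  rw [dist_eq_norm, dist_eq_norm, add_sub_add_right_eq_sub, ← mul_sub, sub_sub_sub_cancel_right, norm_mul,
    Complex.norm_real, Real.norm_of_nonneg hr.le]

theorem isSSPT : IsSelfSimilarPolygonalTiling T := by
  refine ⟨isTiling, selfSimilar, quasiperiodic, ?_, ?_, ?_⟩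
  · refine ⟨range fun i : Fin 8 => tile (i, 0, 0), finite_range _, ?_⟩
    rintro _ ⟨q, rfl⟩
    refine ⟨_, ⟨q.1, rfl⟩, IsometryEquiv.addRight (⟨5 * q.2.1, 5 * q.2.2⟩ : ℂ), ?_⟩
    rw [translate_tile]; simp
  · rintro _ ⟨q, rfl⟩
    exact isPolygon_sq (by exact_mod_cast side_pos q.1)
  · rintro _ ⟨q, rfl⟩ _ ⟨q', rfl⟩
    exact similar _ _ _ _ _ _ (by exact_mod_cast side_pos q.1) (by exact_mod_cast side_pos q'.1)

/-! ### It is not obtained by the generating-pair method -/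

/-- A similitude between two squares has the expected ratio (one inequality). -/
theorem ratio_le {x y a x' y' a' r : ℝ} (ha : 0 < a) (ha' : 0 < a') {f : ℂ → ℂ} (hf : IsSimilitude f r)
    (him : f '' sq x y a = sq x' y' a') : r * a ≤ a' := by
  -- two opposite corners
  have c1 : (⟨x, y⟩ : ℂ) ∈ sq x y a := by
    rw [mem_sq]; refine ⟨⟨?_, ?_⟩, ?_, ?_⟩ <;> simp <;> linarith
  have c2 : (⟨x + a, y + a⟩ : ℂ) ∈ sq x y a := by
    rw [mem_sq]; refine ⟨⟨?_, ?_⟩, ?_, ?_⟩ <;> simp <;> linarith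
  have d1 : f ⟨x, y⟩ ∈ sq x' y' a' := him ▸ ⟨_, c1, rfl⟩
  have d2 : f ⟨x + a, y + a⟩ ∈ sq x' y' a' := him ▸ ⟨_, c2, rfl⟩
  rw [mem_sq] at d1 d2
  have h := hf.2 ⟨x, y⟩ ⟨x + a, y + a⟩
  have e1 : dist (⟨x, y⟩ : ℂ) ⟨x + a, y + a⟩ ^ 2 = 2 * a ^ 2 := by
    rw [Complex.dist_eq, Complex.sq_norm, Complex.normSq_apply]
    simp; ring
  have e2 : dist (f ⟨x, y⟩) (f ⟨x + a, y + a⟩) ^ 2 ≤ 2 * a' ^ 2 := by
    rw [Complex.dist_eq, Complex.sq_norm, Complex.normSq_apply]
    simp only [Complex.sub_re, Complex.sub_im]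
    nlinarith
  rw [h, mul_pow, e1] at e2
  have h3 : (r * a) ^ 2 ≤ a' ^ 2 := by nlinarith
  exact (sq_le_sq₀ (by have := hf.1; positivity) ha'.le).1 h3

theorem ratio_eq {x y a x' y' a' r : ℝ} (ha : 0 < a) (ha' : 0 < a') (f : ℂ ≃ ℂ) (hf : IsSimilitude f r)
    (him : f '' sq x y a = sq x' y' a') : r = a' / a := by
  have h1 := ratio_le ha ha' hf him
  have hr := hf.1
  have h2 : IsSimilitude f.symm r⁻¹ := by
    refine ⟨by positivity, ?_⟩
    intro z w
    have := hf.2 (f.symm z) (f.symm w)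
    rw [Equiv.apply_symm_apply, Equiv.apply_symm_apply] at this
    rw [this]
    field_simp
  have h3 := ratio_le ha' ha h2 (by rw [← him]; exact f.symm_image_image _)
  have h4 : a' ≤ r * a := by
    have := mul_le_mul_of_nonneg_left h3 hr.le
    rwa [← mul_assoc, mul_inv_cancel₀ hr.ne', one_mul] at this
  rw [eq_div_iff ha.ne']
  exact le_antisymm h1 h4


theorem two_zpow_ne_three_zpow {a b : ℤ} (ha : a ≠ 0) : (2 : ℝ) ^ b ≠ 3 ^ a := by
  intro h
  have pos : ∀ {a b : ℤ}, 0 < a → (2 : ℝ) ^ b ≠ 3 ^ a := by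
    intro a b ha h
    obtain ⟨m, rfl⟩ := Int.eq_ofNat_of_zero_le ha.le
    have h3 : (1 : ℝ) < 3 ^ (m : ℤ) := one_lt_zpow₀ (by norm_num) ha
    have hb : 0 < b := by
      by_contra hb
      push Not at hb
      have : (2 : ℝ) ^ b ≤ 1 := zpow_le_one_of_nonpos₀ (by norm_num) hb
      linarith
    obtain ⟨k, rfl⟩ := Int.eq_ofNat_of_zero_le hb.le
    have h' : (2 : ℕ) ^ k = 3 ^ m := by
      have : ((2 : ℕ) : ℝ) ^ k = ((3 : ℕ) : ℝ) ^ m := by exact_mod_cast h
      exact_mod_cast this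
    have e1 : Even ((2 : ℕ) ^ k) := (Nat.even_pow.2 ⟨even_two, by omega⟩)
    rw [h'] at e1
    exact absurd e1 (by rw [Nat.not_even_iff_odd]; exact Odd.pow (by decide))
  rcases lt_or_gt_of_ne ha with h1 | h1
  · apply pos (a := -a) (b := -b) (by omega)
    rw [zpow_neg, zpow_neg, h]
  · exact pos h1 h

/-- The maps of the tiles of `T(θ, k)` are similitudes with ratios `s ^ j`, `j` an integer. -/
theorem GeneratingPair.tile_map (G : GeneratingPair) {θ : ℕ → Fin G.N} {t : Set ℂ} (ht : t ∈ G.tiling θ) :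
    ∃ (g : ℂ ≃ ℂ) (j : ℤ), IsSimilitude g (G.s ^ j) ∧ t = g '' G.p := by
  obtain ⟨k, -, σ, -, -, rfl⟩ := ht
  have hpos : ∀ l : List (Fin G.N), Function.Bijective (G.pos l) := by
    intro l
    induction l with
    | nil => exact Function.bijective_id
    | cons n l ih => exact (G.f n).bijective.comp ih
  have hneg : ∀ l : List (Fin G.N), Function.Bijective (G.neg l) := by
    intro l
    induction l with
    | nil => exact Function.bijective_id
    | cons n l ih => exact (G.f n).symm.bijective.comp ih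
  refine ⟨Equiv.ofBijective _ ((hneg (G.pre θ k)).comp (hpos σ)), (G.e σ : ℤ) - G.e (G.pre θ k), ?_, rfl⟩
  refine ⟨zpow_pos G.s_pos _, ?_⟩
  intro x y
  show dist (G.neg _ (G.pos σ x)) (G.neg _ (G.pos σ y)) = _
  rw [G.neg_simil, G.pos_simil, ← mul_assoc, sub_eq_add_neg, zpow_add₀ G.s_pos.ne', zpow_neg, zpow_natCast,
    zpow_natCast]
  ring

/-- There is a self-similar polygonal tiling of the plane (a periodic tiling by squares of side lengths
`1`, `2`, `3`) that is not obtained by the generating-pair method. -/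
theorem result : ∃ T : Set (Set ℂ), IsSelfSimilarPolygonalTiling T ∧
    ∀ (G : GeneratingPair) (θ : ℕ → Fin G.N), T ≠ G.tiling θ := by
  refine ⟨T, isSSPT, ?_⟩
  intro G θ hT
  have hmem : ∀ i : Fin 8, tile (i, 0, 0) ∈ G.tiling θ := fun i => hT ▸ ⟨_, rfl⟩
  -- the ratio between the sides of two squares is a power of `s`
  have key : ∀ i i' : Fin 8, ∃ j : ℤ, G.s ^ j = ((side i' : ℤ) : ℝ) / ((side i : ℤ) : ℝ) := by
    intro i i'
    obtain ⟨g, j, hg, hgt⟩ := G.tile_map (hmem i)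
    obtain ⟨g', j', hg', hgt'⟩ := G.tile_map (hmem i')
    have hs : (0 : ℝ) < ((side i : ℤ) : ℝ) := by exact_mod_cast side_pos i
    have hs' : (0 : ℝ) < ((side i' : ℤ) : ℝ) := by exact_mod_cast side_pos i'
    refine ⟨j' - j, ?_⟩
    refine ratio_eq hs hs' (g.symm.trans g') ?_ ?_
      (x := ((5 * 0 + cx i : ℤ) : ℝ)) (y := ((5 * 0 + cy i : ℤ) : ℝ))
      (x' := ((5 * 0 + cx i' : ℤ) : ℝ)) (y' := ((5 * 0 + cy i' : ℤ) : ℝ))
    · refine ⟨zpow_pos G.s_pos _, ?_⟩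
      intro x y
      have h1 := hg.2 (g.symm x) (g.symm y)
      rw [Equiv.apply_symm_apply, Equiv.apply_symm_apply] at h1
      show dist (g' (g.symm x)) (g' (g.symm y)) = _
      rw [hg'.2, h1, ← mul_assoc, ← zpow_add₀ G.s_pos.ne']
      congr 2
      ring
    · change (g.symm.trans g') '' tile (i, 0, 0) = tile (i', 0, 0)
      rw [hgt, hgt', Equiv.coe_trans, image_comp, Equiv.symm_image_image]
  obtain ⟨a, ha⟩ := key 2 1
  obtain ⟨b, hb⟩ := key 2 0
  have ha' : G.s ^ a = 2 := by rw [ha]; simp [side]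
  have hb' : G.s ^ b = 3 := by rw [hb]; simp [side]
  have hne : a ≠ 0 := by
    rintro rfl
    norm_num at ha'
  apply two_zpow_ne_three_zpow hne (b := b)
  rw [← ha', ← hb', ← zpow_mul, ← zpow_mul, mul_comm]

end Pool.Agent.Results.MP_4b3b27_co.SquaresOneTwoThree
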